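import Pool.Agent.helper14.NS.Q100c.PN4

/-!
Generated: certificates.
-/

namespace Pool.Agent.helper14.NS.Q100c

open Pool.Agent.helper31.IA (Z)
open Pool.Agent.helper31.IX (Op XOps runX Cov CovD cov_split covD_split)
open Pool.Agent.helper31.IC (TD)
open Pool.Agent.helper63.RG (reloc)
open Pool.Agent.helper63.NF hiding TD
open Pool.Agent.helper4.NS
open Pool.Agent.helper14.CF (xE covD_E)
open Pool.Agent.helper14.NR (share)

mutual
theorem A4_c0_t6 : CovD 1 gA4 [(8246001664, 916455424), (687194767360, 137438953472), (274877906944, 274877906944)] :=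
  covD_E kA4_eq (.n 1 (.n 2 (.n 2 (.n 2 (.l 0) (.l 0)) (.n 2 (.l 0) (.l 0))) (.n 2 (.n 2 (.l 0) (.l 0)) (.n 0 (.l 0) (.l 0)))) (.n 2 (.n 0 (.n 2 (.l 0) (.l 0)) (.n 2 (.l 0) (.l 0))) (.n 2 (.n 0 (.l 0) (.l 0)) (.l 0))))
    [(8246001664, 916455424), (687194767360, 137438953472), (274877906944, 274877906944)] rfl (by decide +kernel)
theorem A4_c0_t7 : CovD 1 gA4 [(8246001664, 916455424), (687194767360, 137438953472), (824633720832, 274877906944)] :=
  covD_E kA4_eq (.n 2 (.n 2 (.n 2 (.l 0) (.l 0)) (.n 0 (.l 0) (.l 0))) (.n 0 (.n 2 (.l 0) (.l 0)) (.n 2 (.l 0) (.l 0))))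
    [(8246001664, 916455424), (687194767360, 137438953472), (824633720832, 274877906944)] rfl (by decide +kernel)
end

mutual
theorem A4_c0_t8 : CovD 1 gA4 [(8246001664, 916455424), (687194767360, 137438953472), (1649267441664, 549755813888)] :=
  covD_E kA4_eq (.n 2 (.n 2 (.n 0 (.n 2 (.l 0) (.l 0)) (.n 2 (.l 0) (.l 0))) (.n 2 (.n 0 (.l 0) (.l 0)) (.l 0))) (.n 2 (.n 2 (.l 0) (.l 0)) (.n 2 (.l 0) (.l 0))))
    [(8246001664, 916455424), (687194767360, 137438953472), (1649267441664, 549755813888)] rfl (by decide +kernel)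
theorem A4_c0_t10 : CovD 1 gA4 [(8246001664, 916455424), (962072674304, 137438953472), (549755813888, 549755813888)] :=
  covD_E kA4_eq (.n 2 (.n 2 (.n 2 (.n 2 (.l 0) (.l 0)) (.n 2 (.l 0) (.l 0))) (.n 1 (.n 2 (.l 0) (.l 0)) (.n 2 (.l 0) (.l 0)))) (.n 0 (.n 2 (.n 2 (.l 0) (.l 0)) (.n 2 (.l 0) (.l 0))) (.n 2 (.n 2 (.l 0) (.l 0)) (.n 2 (.l 0) (.l 0)))))
    [(8246001664, 916455424), (962072674304, 137438953472), (549755813888, 549755813888)] rfl (by decide +kernel)
end

mutual
theorem A4_c0_t11 : CovD 1 gA4 [(8246001664, 916455424), (962072674304, 137438953472), (1649267441664, 549755813888)] :=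
  covD_E kA4_eq (.n 2 (.n 2 (.n 2 (.n 0 (.l 0) (.l 0)) (.l 0)) (.n 2 (.l 0) (.l 0))) (.n 2 (.n 2 (.l 0) (.l 0)) (.n 2 (.l 0) (.l 0))))
    [(8246001664, 916455424), (962072674304, 137438953472), (1649267441664, 549755813888)] rfl (by decide +kernel)
theorem A4_c0_t14 : CovD 1 gA4 [(10078912512, 916455424), (687194767360, 137438953472), (549755813888, 549755813888)] :=
  covD_E kA4_eq (.n 2 (.n 2 (.n 2 (.n 2 (.l 0) (.l 0)) (.n 2 (.l 0) (.l 0))) (.n 2 (.n 2 (.l 0) (.l 0)) (.n 1 (.l 0) (.l 0)))) (.n 2 (.n 0 (.n 2 (.l 0) (.l 0)) (.n 2 (.l 0) (.l 0))) (.n 2 (.l 0) (.l 0))))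
    [(10078912512, 916455424), (687194767360, 137438953472), (549755813888, 549755813888)] rfl (by decide +kernel)
end

mutual
theorem A4_c0_t15 : CovD 1 gA4 [(10078912512, 916455424), (687194767360, 137438953472), (1649267441664, 549755813888)] :=
  covD_E kA4_eq (.n 2 (.n 2 (.n 2 (.l 0) (.l 0)) (.n 2 (.l 0) (.l 0))) (.n 2 (.n 2 (.l 0) (.l 0)) (.n 2 (.l 0) (.l 0))))
    [(10078912512, 916455424), (687194767360, 137438953472), (1649267441664, 549755813888)] rfl (by decide +kernel)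
theorem A4_c0_t17 : CovD 1 gA4 [(10078912512, 916455424), (962072674304, 137438953472), (549755813888, 549755813888)] :=
  covD_E kA4_eq (.n 2 (.n 1 (.n 2 (.n 2 (.l 0) (.l 0)) (.n 2 (.l 0) (.l 0))) (.n 2 (.n 2 (.l 0) (.l 0)) (.n 2 (.l 0) (.l 0)))) (.n 2 (.n 0 (.n 2 (.l 0) (.l 0)) (.n 2 (.l 0) (.l 0))) (.n 2 (.n 0 (.l 0) (.l 0)) (.l 0))))
    [(10078912512, 916455424), (962072674304, 137438953472), (549755813888, 549755813888)] rfl (by decide +kernel)
end

mutual
theorem A4_c0_t18 : CovD 1 gA4 [(10078912512, 916455424), (962072674304, 137438953472), (1649267441664, 549755813888)] :=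
  covD_E kA4_eq (.n 2 (.n 2 (.n 2 (.l 0) (.l 0)) (.n 1 (.l 0) (.l 0))) (.n 1 (.n 2 (.l 0) (.l 0)) (.n 2 (.l 0) (.l 0))))
    [(10078912512, 916455424), (962072674304, 137438953472), (1649267441664, 549755813888)] rfl (by decide +kernel)
theorem A4_c0_t21 : CovD 1 gA4 [(8246001664, 916455424), (824633720832, 274877906944), (2748779069440, 549755813888)] :=
  covD_E kA4_eq (.n 1 (.n 2 (.n 2 (.n 2 (.l 0) (.l 0)) (.n 2 (.l 0) (.l 0))) (.n 2 (.n 2 (.l 0) (.l 0)) (.n 2 (.l 0) (.l 0)))) (.n 2 (.n 2 (.n 2 (.l 0) (.l 0)) (.n 2 (.l 0) (.l 0))) (.n 2 (.n 2 (.l 0) (.l 0)) (.n 2 (.l 0) (.l 0)))))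
    [(8246001664, 916455424), (824633720832, 274877906944), (2748779069440, 549755813888)] rfl (by decide +kernel)
end

mutual
theorem A4_c0_t22 : CovD 1 gA4 [(10078912512, 916455424), (824633720832, 274877906944), (2748779069440, 549755813888)] :=
  covD_E kA4_eq (.n 1 (.n 2 (.n 2 (.n 2 (.l 0) (.l 0)) (.n 2 (.l 0) (.l 0))) (.n 2 (.n 2 (.l 0) (.l 0)) (.n 0 (.l 0) (.l 0)))) (.n 2 (.n 2 (.n 1 (.l 0) (.l 0)) (.n 2 (.l 0) (.l 0))) (.n 0 (.n 2 (.l 0) (.l 0)) (.n 2 (.l 0) (.l 0)))))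
    [(10078912512, 916455424), (824633720832, 274877906944), (2748779069440, 549755813888)] rfl (by decide +kernel)
theorem A4_c0_t25 : CovD 1 gA4 [(9162457088, 1832910848), (687194767360, 137438953472), (3573412790272, 274877906944)] :=
  covD_E kA4_eq (.n 2 (.n 0 (.n 2 (.l 0) (.n 0 (.n 0 (.l 0) (.l 0)) (.n 0 (.l 0) (.l 0)))) (.n 2 (.l 0) (.n 0 (.n 0 (.l 0) (.l 0)) (.l 0)))) (.n 2 (.n 0 (.l 1) (.l 1)) (.l 1)))
    [(9162457088, 1832910848), (687194767360, 137438953472), (3573412790272, 274877906944)] rfl (by decide +kernel)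
end

mutual
theorem A4_c0_t26 : CovD 1 gA4 [(9162457088, 1832910848), (962072674304, 137438953472), (3573412790272, 274877906944)] :=
  covD_E kA4_eq (.n 0 (.n 2 (.n 2 (.l 0) (.n 2 (.l 0) (.n 0 (.l 0) (.l 0)))) (.n 0 (.l 1) (.l 1))) (.n 2 (.n 2 (.l 0) (.n 0 (.l 0) (.l 0))) (.n 0 (.l 1) (.l 1))))
    [(9162457088, 1832910848), (962072674304, 137438953472), (3573412790272, 274877906944)] rfl (by decide +kernel)
theorem A4_c0_t27 : CovD 1 gA4 [(9162457088, 1832910848), (824633720832, 274877906944), (4123168604160, 274877906944)] :=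
  covD_E kA4_eq (.n 0 (.l 1) (.l 1))
    [(9162457088, 1832910848), (824633720832, 274877906944), (4123168604160, 274877906944)] rfl (by decide +kernel)
end

mutual
theorem A4_c0_t28 : CovD 1 gA4 [(9162457088, 1832910848), (824633720832, 274877906944), (6597069766656, 2199023255552)] :=
  covD_E kA4_eq (.n 2 (.n 0 (.n 2 (.n 0 (.l 1) (.l 1)) (.l 1)) (.n 2 (.l 1) (.l 1))) (.n 2 (.n 0 (.l 1) (.l 1)) (.l 1)))
    [(9162457088, 1832910848), (824633720832, 274877906944), (6597069766656, 2199023255552)] rfl (by decide +kernel)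
theorem B4_c0_t3 : CovD 1 gB4 [(8246001664, 916455424), (824633720832, 274877906944), (17179869184, 17179869184)] :=
  covD_E kB4_eq (.n 2 (.n 2 (.n 2 (.n 2 (.l 1) (.n 0 (.l 1) (.l 1))) (.n 2 (.n 0 (.l 1) (.l 1)) (.l 1))) (.n 2 (.n 2 (.l 1) (.l 1)) (.n 0 (.l 1) (.l 1)))) (.n 2 (.n 2 (.n 0 (.l 1) (.l 1)) (.l 1)) (.n 2 (.l 1) (.l 1))))
    [(8246001664, 916455424), (824633720832, 274877906944), (17179869184, 17179869184)] rfl (by decide +kernel)
end

mutual
theorem B4_c0_t4 : CovD 1 gB4 [(8246001664, 916455424), (824633720832, 274877906944), (51539607552, 17179869184)] :=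
  covD_E kB4_eq (.n 2 (.n 2 (.n 0 (.l 1) (.l 1)) (.l 1)) (.n 2 (.l 1) (.l 1)))
    [(8246001664, 916455424), (824633720832, 274877906944), (51539607552, 17179869184)] rfl (by decide +kernel)
theorem B4_c0_t5 : CovD 1 gB4 [(8246001664, 916455424), (824633720832, 274877906944), (103079215104, 34359738368)] :=
  covD_E kB4_eq (.n 2 (.n 2 (.n 0 (.l 1) (.l 1)) (.l 1)) (.n 2 (.l 1) (.l 1)))
    [(8246001664, 916455424), (824633720832, 274877906944), (103079215104, 34359738368)] rfl (by decide +kernel)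
end

mutual
theorem B4_c0_t8 : CovD 1 gB4 [(10078912512, 916455424), (824633720832, 274877906944), (17179869184, 17179869184)] :=
  covD_E kB4_eq (.n 2 (.n 2 (.n 2 (.n 2 (.l 1) (.l 1)) (.n 0 (.l 1) (.l 1))) (.n 0 (.n 2 (.l 1) (.l 1)) (.n 2 (.l 1) (.l 1)))) (.n 2 (.n 2 (.n 0 (.l 1) (.l 1)) (.l 1)) (.n 2 (.l 1) (.l 1))))
    [(10078912512, 916455424), (824633720832, 274877906944), (17179869184, 17179869184)] rfl (by decide +kernel)
theorem B4_c0_t9 : CovD 1 gB4 [(10078912512, 916455424), (824633720832, 274877906944), (51539607552, 17179869184)] :=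
  covD_E kB4_eq (.n 2 (.n 2 (.n 0 (.l 1) (.l 1)) (.l 1)) (.n 2 (.l 1) (.l 1)))
    [(10078912512, 916455424), (824633720832, 274877906944), (51539607552, 17179869184)] rfl (by decide +kernel)
end

mutual
theorem B4_c0_t10 : CovD 1 gB4 [(10078912512, 916455424), (824633720832, 274877906944), (103079215104, 34359738368)] :=
  covD_E kB4_eq (.n 2 (.n 2 (.l 1) (.l 1)) (.n 2 (.l 1) (.l 1)))
    [(10078912512, 916455424), (824633720832, 274877906944), (103079215104, 34359738368)] rfl (by decide +kernel)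
theorem D4_c0_t1 : CovD 1 gD4 [(9162457088, 1832910848), (824633720832, 274877906944), (431805169664, 431805169664)] :=
  covD_E kD4_eq (.n 2 (.n 2 (.n 2 (.n 1 (.l 0) (.l 0)) (.n 1 (.l 0) (.l 0))) (.n 2 (.n 1 (.l 0) (.l 0)) (.n 1 (.l 0) (.l 0)))) (.n 2 (.n 2 (.n 1 (.l 0) (.l 0)) (.n 1 (.l 0) (.l 0))) (.n 2 (.n 1 (.l 0) (.l 0)) (.n 1 (.l 0) (.l 0)))))
    [(9162457088, 1832910848), (824633720832, 274877906944), (431805169664, 431805169664)] rfl (by decide +kernel)
end

mutual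
theorem D4_c0_t2 : CovD 1 gD4 [(9162457088, 1832910848), (824633720832, 274877906944), (1295415508992, 431805169664)] :=
  covD_E kD4_eq (.n 2 (.n 2 (.n 2 (.n 1 (.l 0) (.l 0)) (.n 1 (.l 0) (.l 0))) (.n 2 (.n 1 (.l 0) (.l 0)) (.n 1 (.l 0) (.l 0)))) (.n 2 (.n 2 (.n 1 (.l 0) (.l 0)) (.n 1 (.l 0) (.l 0))) (.n 2 (.n 1 (.l 0) (.l 0)) (.n 1 (.l 0) (.l 0)))))
    [(9162457088, 1832910848), (824633720832, 274877906944), (1295415508992, 431805169664)] rfl (by decide +kernel)
theorem E4_c0_t3 : CovD 1 gE4 [(9162457088, 1832910848), (687194767360, 137438953472), (215902584832, 215902584832)] :=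
  covD_E kE4_eq (.n 2 (.n 2 (.n 1 (.l 1) (.l 1)) (.n 2 (.n 0 (.l 0) (.l 0)) (.l 0))) (.n 0 (.n 2 (.l 0) (.l 0)) (.n 2 (.l 0) (.l 0))))
    [(9162457088, 1832910848), (687194767360, 137438953472), (215902584832, 215902584832)] rfl (by decide +kernel)
end

mutual
theorem E4_c0_t4 : CovD 1 gE4 [(9162457088, 1832910848), (962072674304, 137438953472), (215902584832, 215902584832)] :=
  covD_E kE4_eq (.n 2 (.n 2 (.l 1) (.n 0 (.n 2 (.l 0) (.l 0)) (.n 2 (.l 0) (.l 0)))) (.n 2 (.n 2 (.l 0) (.l 0)) (.n 2 (.l 0) (.l 0))))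
    [(9162457088, 1832910848), (962072674304, 137438953472), (215902584832, 215902584832)] rfl (by decide +kernel)
theorem E4_c0_t5 : CovD 1 gE4 [(9162457088, 1832910848), (824633720832, 274877906944), (647707754496, 215902584832)] :=
  covD_E kE4_eq (.n 2 (.n 1 (.n 2 (.l 0) (.l 0)) (.n 0 (.n 2 (.l 0) (.l 0)) (.n 2 (.l 0) (.l 0)))) (.n 1 (.n 2 (.l 0) (.l 0)) (.n 2 (.l 0) (.l 0))))
    [(9162457088, 1832910848), (824633720832, 274877906944), (647707754496, 215902584832)] rfl (by decide +kernel)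
end

theorem E4_c0_t6 : CovD 1 gE4 [(9162457088, 1832910848), (824633720832, 274877906944), (1295415508992, 431805169664)] :=
  covD_E kE4_eq (.n 2 (.n 2 (.n 1 (.n 2 (.l 0) (.l 0)) (.n 2 (.l 0) (.l 0))) (.n 1 (.n 2 (.l 0) (.l 0)) (.n 2 (.l 0) (.l 0)))) (.n 2 (.n 1 (.n 2 (.l 0) (.l 0)) (.n 2 (.l 0) (.l 0))) (.n 1 (.n 2 (.l 0) (.l 0)) (.n 2 (.l 0) (.l 0)))))
    [(9162457088, 1832910848), (824633720832, 274877906944), (1295415508992, 431805169664)] rfl (by decide +kernel)

theorem A4_c0_t5 : CovD 1 gA4 [(8246001664, 916455424), (687194767360, 137438953472), (549755813888, 549755813888)] :=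
  covD_split 2 (by decide +kernel) A4_c0_t6 A4_c0_t7

theorem A4_c0_t4 : CovD 1 gA4 [(8246001664, 916455424), (687194767360, 137438953472), (1099511627776, 1099511627776)] :=
  covD_split 2 (by decide +kernel) A4_c0_t5 A4_c0_t8

theorem A4_c0_t9 : CovD 1 gA4 [(8246001664, 916455424), (962072674304, 137438953472), (1099511627776, 1099511627776)] :=
  covD_split 2 (by decide +kernel) A4_c0_t10 A4_c0_t11

theorem A4_c0_t3 : CovD 1 gA4 [(8246001664, 916455424), (824633720832, 274877906944), (1099511627776, 1099511627776)] :=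
  covD_split 1 (by decide +kernel) A4_c0_t4 A4_c0_t9

theorem A4_c0_t13 : CovD 1 gA4 [(10078912512, 916455424), (687194767360, 137438953472), (1099511627776, 1099511627776)] :=
  covD_split 2 (by decide +kernel) A4_c0_t14 A4_c0_t15

theorem A4_c0_t16 : CovD 1 gA4 [(10078912512, 916455424), (962072674304, 137438953472), (1099511627776, 1099511627776)] :=
  covD_split 2 (by decide +kernel) A4_c0_t17 A4_c0_t18

theorem A4_c0_t12 : CovD 1 gA4 [(10078912512, 916455424), (824633720832, 274877906944), (1099511627776, 1099511627776)] :=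
  covD_split 1 (by decide +kernel) A4_c0_t13 A4_c0_t16

theorem A4_c0_t2 : CovD 1 gA4 [(9162457088, 1832910848), (824633720832, 274877906944), (1099511627776, 1099511627776)] :=
  covD_split 0 (by decide +kernel) A4_c0_t3 A4_c0_t12

theorem A4_c0_t20 : CovD 1 gA4 [(9162457088, 1832910848), (824633720832, 274877906944), (2748779069440, 549755813888)] :=
  covD_split 0 (by decide +kernel) A4_c0_t21 A4_c0_t22

theorem A4_c0_t24 : CovD 1 gA4 [(9162457088, 1832910848), (824633720832, 274877906944), (3573412790272, 274877906944)] :=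
  covD_split 1 (by decide +kernel) A4_c0_t25 A4_c0_t26

theorem A4_c0_t23 : CovD 1 gA4 [(9162457088, 1832910848), (824633720832, 274877906944), (3848290697216, 549755813888)] :=
  covD_split 2 (by decide +kernel) A4_c0_t24 A4_c0_t27

theorem A4_c0_t19 : CovD 1 gA4 [(9162457088, 1832910848), (824633720832, 274877906944), (3298534883328, 1099511627776)] :=
  covD_split 2 (by decide +kernel) A4_c0_t20 A4_c0_t23

theorem A4_c0_t1 : CovD 1 gA4 [(9162457088, 1832910848), (824633720832, 274877906944), (2199023255552, 2199023255552)] :=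
  covD_split 2 (by decide +kernel) A4_c0_t2 A4_c0_t19

theorem A4_c0 : CovD 1 gA4 [(9162457088, 1832910848), (824633720832, 274877906944), (4398046511104, 4398046511104)] :=
  covD_split 2 (by decide +kernel) A4_c0_t1 A4_c0_t28

theorem B4_c0_t2 : CovD 1 gB4 [(8246001664, 916455424), (824633720832, 274877906944), (34359738368, 34359738368)] :=
  covD_split 2 (by decide +kernel) B4_c0_t3 B4_c0_t4

theorem B4_c0_t1 : CovD 1 gB4 [(8246001664, 916455424), (824633720832, 274877906944), (68719476736, 68719476736)] :=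
  covD_split 2 (by decide +kernel) B4_c0_t2 B4_c0_t5

theorem B4_c0_t7 : CovD 1 gB4 [(10078912512, 916455424), (824633720832, 274877906944), (34359738368, 34359738368)] :=
  covD_split 2 (by decide +kernel) B4_c0_t8 B4_c0_t9

theorem B4_c0_t6 : CovD 1 gB4 [(10078912512, 916455424), (824633720832, 274877906944), (68719476736, 68719476736)] :=
  covD_split 2 (by decide +kernel) B4_c0_t7 B4_c0_t10

theorem B4_c0 : CovD 1 gB4 [(9162457088, 1832910848), (824633720832, 274877906944), (68719476736, 68719476736)] :=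
  covD_split 0 (by decide +kernel) B4_c0_t1 B4_c0_t6

theorem D4_c0 : CovD 1 gD4 [(9162457088, 1832910848), (824633720832, 274877906944), (863610339328, 863610339328)] :=
  covD_split 2 (by decide +kernel) D4_c0_t1 D4_c0_t2

theorem E4_c0_t2 : CovD 1 gE4 [(9162457088, 1832910848), (824633720832, 274877906944), (215902584832, 215902584832)] :=
  covD_split 1 (by decide +kernel) E4_c0_t3 E4_c0_t4

theorem E4_c0_t1 : CovD 1 gE4 [(9162457088, 1832910848), (824633720832, 274877906944), (431805169664, 431805169664)] :=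
  covD_split 2 (by decide +kernel) E4_c0_t2 E4_c0_t5

theorem E4_c0 : CovD 1 gE4 [(9162457088, 1832910848), (824633720832, 274877906944), (863610339328, 863610339328)] :=
  covD_split 2 (by decide +kernel) E4_c0_t1 E4_c0_t6

end Pool.Agent.helper14.NS.Q100c
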