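import Pool.Agent.helper14.NS.Q100c.PZ

/-!
Generated: certificates.
-/

namespace Pool.Agent.helper14.NS.Q100c

open Pool.Agent.helper31.IA (Z)
open Pool.Agent.helper31.IX (Op XOps runX Cov CovD cov_split covD_split)
open Pool.Agent.helper31.IC (TD)
open Pool.Agent.helper63.RG (reloc)
open Pool.Agent.helper63.NF hiding TD
open Pool.Agent.helper4.NS
open Pool.Agent.helper14.CF (xE covD_E)
open Pool.Agent.helper14.NR (share)

mutual
theorem Z_c0_t5 : CovD 1 gZ [(8246001664, 916455424), (618475290624, 68719476736), (119856431104, 119856431104)] :=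
  covD_E kZ_eq (.n 2 (.n 2 (.n 2 (.l 0) (.l 0)) (.n 2 (.l 0) (.l 0))) (.n 2 (.n 2 (.l 0) (.l 0)) (.n 2 (.l 0) (.l 0))))
    [(8246001664, 916455424), (618475290624, 68719476736), (119856431104, 119856431104)] rfl (by decide +kernel)
theorem Z_c0_t6 : CovD 1 gZ [(8246001664, 916455424), (618475290624, 68719476736), (359569293312, 119856431104)] :=
  covD_E kZ_eq (.n 2 (.n 2 (.n 2 (.l 0) (.l 0)) (.n 2 (.l 0) (.l 0))) (.n 1 (.n 2 (.n 2 (.l 0) (.l 0)) (.n 2 (.l 0) (.l 0))) (.n 2 (.n 2 (.l 0) (.l 0)) (.n 2 (.l 0) (.l 0)))))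
    [(8246001664, 916455424), (618475290624, 68719476736), (359569293312, 119856431104)] rfl (by decide +kernel)
end

mutual
theorem Z_c0_t9 : CovD 1 gZ [(8246001664, 916455424), (584115552256, 34359738368), (599282155520, 119856431104)] :=
  covD_E kZ_eq (.n 2 (.n 2 (.n 2 (.l 0) (.n 0 (.l 0) (.l 0))) (.n 0 (.n 2 (.l 0) (.l 0)) (.n 2 (.l 0) (.l 0)))) (.n 2 (.n 2 (.n 2 (.l 0) (.l 0)) (.n 2 (.l 0) (.l 0))) (.n 2 (.n 2 (.l 0) (.l 0)) (.n 2 (.l 0) (.l 0)))))
    [(8246001664, 916455424), (584115552256, 34359738368), (599282155520, 119856431104)] rfl (by decide +kernel)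
theorem Z_c0_t10 : CovD 1 gZ [(8246001664, 916455424), (652835028992, 34359738368), (599282155520, 119856431104)] :=
  covD_E kZ_eq (.n 2 (.n 2 (.n 2 (.l 0) (.l 0)) (.n 2 (.l 0) (.l 0))) (.n 2 (.n 2 (.l 0) (.l 0)) (.n 2 (.l 0) (.l 0))))
    [(8246001664, 916455424), (652835028992, 34359738368), (599282155520, 119856431104)] rfl (by decide +kernel)
end

mutual
theorem Z_c0_t13 : CovD 1 gZ [(7787773952, 458227712), (618475290624, 68719476736), (779066802176, 59928215552)] :=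
  covD_E kZ_eq (.n 1 (.n 2 (.n 2 (.n 2 (.l 0) (.l 0)) (.n 2 (.l 0) (.l 0))) (.n 2 (.n 2 (.l 0) (.l 0)) (.n 2 (.l 0) (.l 0)))) (.n 2 (.n 2 (.l 0) (.l 0)) (.n 2 (.l 0) (.l 0))))
    [(7787773952, 458227712), (618475290624, 68719476736), (779066802176, 59928215552)] rfl (by decide +kernel)
theorem Z_c0_t15 : CovD 1 gZ [(7787773952, 458227712), (618475290624, 68719476736), (868959125504, 29964107776)] :=
  covD_E kZ_eq (.n 2 (.n 1 (.n 2 (.l 0) (.l 0)) (.n 0 (.l 0) (.l 0))) (.n 0 (.n 1 (.n 2 (.l 0) (.l 0)) (.l 0)) (.n 2 (.l 0) (.l 0))))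
    [(7787773952, 458227712), (618475290624, 68719476736), (868959125504, 29964107776)] rfl (by decide +kernel)
end

mutual
theorem Z_c0_t16 : CovD 1 gZ [(7787773952, 458227712), (618475290624, 68719476736), (928887341056, 29964107776)] :=
  covD_E kZ_eq (.n 2 (.n 0 (.n 1 (.n 2 (.l 0) (.l 0)) (.l 0)) (.n 2 (.l 0) (.l 0))) (.n 1 (.n 0 (.n 2 (.l 0) (.n 1 (.l 0) (.l 0))) (.n 2 (.l 0) (.l 0))) (.n 2 (.l 0) (.l 0))))
    [(7787773952, 458227712), (618475290624, 68719476736), (928887341056, 29964107776)] rfl (by decide +kernel)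
theorem Z_c0_t18 : CovD 1 gZ [(8704229376, 458227712), (618475290624, 68719476736), (779066802176, 59928215552)] :=
  covD_E kZ_eq (.n 2 (.n 2 (.n 2 (.l 0) (.l 0)) (.n 1 (.n 1 (.l 0) (.l 0)) (.l 0))) (.n 1 (.n 2 (.n 2 (.l 0) (.l 0)) (.n 2 (.l 0) (.l 0))) (.n 2 (.l 0) (.l 0))))
    [(8704229376, 458227712), (618475290624, 68719476736), (779066802176, 59928215552)] rfl (by decide +kernel)
end

mutual
theorem Z_c0_t19 : CovD 1 gZ [(8704229376, 458227712), (618475290624, 68719476736), (898923233280, 59928215552)] :=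
  covD_E kZ_eq (.n 2 (.n 1 (.n 2 (.n 2 (.l 0) (.l 0)) (.n 2 (.l 0) (.l 0))) (.n 2 (.l 0) (.l 0))) (.n 2 (.n 1 (.n 2 (.l 0) (.l 0)) (.l 0)) (.n 2 (.l 0) (.l 0))))
    [(8704229376, 458227712), (618475290624, 68719476736), (898923233280, 59928215552)] rfl (by decide +kernel)
theorem Z_c0_t21 : CovD 1 gZ [(8246001664, 916455424), (755914244096, 68719476736), (239712862208, 239712862208)] :=
  covD_E kZ_eq (.n 2 (.n 2 (.n 2 (.n 2 (.l 0) (.l 0)) (.n 2 (.l 0) (.l 0))) (.n 2 (.n 2 (.l 0) (.l 0)) (.n 2 (.l 0) (.l 0)))) (.n 2 (.n 2 (.n 1 (.l 0) (.l 0)) (.n 2 (.l 0) (.l 0))) (.n 2 (.n 2 (.l 0) (.l 0)) (.n 2 (.l 0) (.l 0)))))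
    [(8246001664, 916455424), (755914244096, 68719476736), (239712862208, 239712862208)] rfl (by decide +kernel)
end

mutual
theorem Z_c0_t23 : CovD 1 gZ [(8246001664, 916455424), (755914244096, 68719476736), (599282155520, 119856431104)] :=
  covD_E kZ_eq (.n 2 (.n 2 (.n 2 (.l 0) (.l 0)) (.n 2 (.l 0) (.l 0))) (.n 2 (.n 2 (.l 0) (.l 0)) (.n 2 (.l 0) (.l 0))))
    [(8246001664, 916455424), (755914244096, 68719476736), (599282155520, 119856431104)] rfl (by decide +kernel)
theorem Z_c0_t25 : CovD 1 gZ [(8246001664, 916455424), (755914244096, 68719476736), (779066802176, 59928215552)] :=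
  covD_E kZ_eq (.n 2 (.n 2 (.l 0) (.n 0 (.l 0) (.l 0))) (.n 0 (.n 2 (.l 0) (.l 0)) (.n 2 (.l 0) (.l 0))))
    [(8246001664, 916455424), (755914244096, 68719476736), (779066802176, 59928215552)] rfl (by decide +kernel)
end

mutual
theorem Z_c0_t26 : CovD 1 gZ [(8246001664, 916455424), (755914244096, 68719476736), (898923233280, 59928215552)] :=
  covD_E kZ_eq (.n 0 (.n 0 (.n 2 (.n 2 (.l 0) (.l 0)) (.n 2 (.l 0) (.n 1 (.l 0) (.l 0)))) (.n 2 (.n 2 (.l 0) (.l 0)) (.n 2 (.l 0) (.l 0)))) (.n 2 (.n 2 (.l 0) (.l 0)) (.n 2 (.l 0) (.l 0))))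
    [(8246001664, 916455424), (755914244096, 68719476736), (898923233280, 59928215552)] rfl (by decide +kernel)
theorem Z_c0_t29 : CovD 1 gZ [(8246001664, 916455424), (893353197568, 68719476736), (239712862208, 239712862208)] :=
  covD_E kZ_eq (.n 2 (.n 2 (.n 2 (.n 2 (.l 0) (.l 0)) (.n 2 (.l 0) (.l 0))) (.n 2 (.n 2 (.l 0) (.l 0)) (.n 1 (.l 0) (.l 0)))) (.n 0 (.n 2 (.n 2 (.l 0) (.l 0)) (.n 2 (.l 0) (.l 0))) (.n 2 (.n 2 (.l 0) (.l 0)) (.n 2 (.l 0) (.l 0)))))
    [(8246001664, 916455424), (893353197568, 68719476736), (239712862208, 239712862208)] rfl (by decide +kernel)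
end

mutual
theorem Z_c0_t31 : CovD 1 gZ [(8246001664, 916455424), (893353197568, 68719476736), (599282155520, 119856431104)] :=
  covD_E kZ_eq (.n 2 (.n 2 (.l 0) (.l 0)) (.n 2 (.l 0) (.n 0 (.l 0) (.l 0))))
    [(8246001664, 916455424), (893353197568, 68719476736), (599282155520, 119856431104)] rfl (by decide +kernel)
theorem Z_c0_t32 : CovD 1 gZ [(8246001664, 916455424), (893353197568, 68719476736), (838995017728, 119856431104)] :=
  covD_E kZ_eq (.n 2 (.n 2 (.n 0 (.l 0) (.l 0)) (.n 2 (.l 0) (.l 0))) (.n 0 (.n 2 (.n 2 (.l 0) (.l 0)) (.n 2 (.l 0) (.l 0))) (.n 2 (.n 2 (.l 0) (.l 0)) (.n 2 (.l 0) (.l 0)))))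
    [(8246001664, 916455424), (893353197568, 68719476736), (838995017728, 119856431104)] rfl (by decide +kernel)
end

mutual
theorem Z_c0_t34 : CovD 1 gZ [(8246001664, 916455424), (1030792151040, 68719476736), (239712862208, 239712862208)] :=
  covD_E kZ_eq (.n 2 (.n 2 (.n 2 (.n 2 (.l 0) (.l 0)) (.n 2 (.l 0) (.l 0))) (.n 1 (.n 2 (.l 0) (.l 0)) (.n 2 (.l 0) (.l 0)))) (.n 2 (.n 0 (.n 2 (.l 0) (.l 0)) (.n 2 (.l 0) (.l 0))) (.n 2 (.n 0 (.l 0) (.l 0)) (.l 0))))
    [(8246001664, 916455424), (1030792151040, 68719476736), (239712862208, 239712862208)] rfl (by decide +kernel)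
theorem Z_c0_t35 : CovD 1 gZ [(8246001664, 916455424), (1030792151040, 68719476736), (719138586624, 239712862208)] :=
  covD_E kZ_eq (.n 2 (.n 2 (.n 2 (.l 0) (.l 0)) (.n 2 (.l 0) (.l 0))) (.n 2 (.n 2 (.l 0) (.n 0 (.l 0) (.l 0))) (.n 2 (.n 2 (.l 0) (.l 0)) (.n 2 (.l 0) (.l 0)))))
    [(8246001664, 916455424), (1030792151040, 68719476736), (719138586624, 239712862208)] rfl (by decide +kernel)
end

mutual
theorem Z_c0_t40 : CovD 1 gZ [(10078912512, 916455424), (618475290624, 68719476736), (119856431104, 119856431104)] :=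
  covD_E kZ_eq (.n 2 (.n 2 (.n 2 (.l 0) (.l 0)) (.n 2 (.l 0) (.l 0))) (.n 2 (.n 2 (.l 0) (.l 0)) (.n 2 (.l 0) (.l 0))))
    [(10078912512, 916455424), (618475290624, 68719476736), (119856431104, 119856431104)] rfl (by decide +kernel)
theorem Z_c0_t41 : CovD 1 gZ [(10078912512, 916455424), (618475290624, 68719476736), (359569293312, 119856431104)] :=
  covD_E kZ_eq (.n 2 (.n 2 (.n 2 (.l 0) (.l 0)) (.n 2 (.l 0) (.l 0))) (.n 1 (.n 2 (.n 2 (.l 0) (.l 0)) (.n 2 (.l 0) (.l 0))) (.n 2 (.n 2 (.l 0) (.l 0)) (.n 2 (.l 0) (.l 0)))))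
    [(10078912512, 916455424), (618475290624, 68719476736), (359569293312, 119856431104)] rfl (by decide +kernel)
end

mutual
theorem Z_c0_t44 : CovD 1 gZ [(10078912512, 916455424), (618475290624, 68719476736), (539353939968, 59928215552)] :=
  covD_E kZ_eq (.n 1 (.n 2 (.n 2 (.l 0) (.l 0)) (.n 2 (.l 0) (.l 0))) (.n 2 (.n 2 (.l 0) (.l 0)) (.n 2 (.l 0) (.l 0))))
    [(10078912512, 916455424), (618475290624, 68719476736), (539353939968, 59928215552)] rfl (by decide +kernel)
theorem Z_c0_t45 : CovD 1 gZ [(10078912512, 916455424), (618475290624, 68719476736), (659210371072, 59928215552)] :=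
  covD_E kZ_eq (.n 2 (.n 2 (.n 1 (.l 0) (.l 0)) (.n 2 (.l 0) (.l 0))) (.n 1 (.n 0 (.n 2 (.l 0) (.l 0)) (.n 2 (.l 0) (.l 0))) (.n 2 (.l 0) (.l 0))))
    [(10078912512, 916455424), (618475290624, 68719476736), (659210371072, 59928215552)] rfl (by decide +kernel)
end

mutual
theorem Z_c0_t47 : CovD 1 gZ [(10078912512, 916455424), (618475290624, 68719476736), (779066802176, 59928215552)] :=
  covD_E kZ_eq (.n 1 (.n 2 (.n 2 (.n 2 (.l 0) (.l 0)) (.n 2 (.l 0) (.l 0))) (.n 2 (.n 2 (.l 0) (.l 0)) (.n 2 (.l 0) (.l 0)))) (.n 2 (.n 2 (.l 0) (.l 0)) (.n 2 (.l 0) (.n 0 (.l 0) (.l 0)))))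
    [(10078912512, 916455424), (618475290624, 68719476736), (779066802176, 59928215552)] rfl (by decide +kernel)
theorem Z_c0_t49 : CovD 1 gZ [(9620684800, 458227712), (618475290624, 68719476736), (898923233280, 59928215552)] :=
  covD_E kZ_eq (.n 2 (.n 2 (.n 2 (.l 0) (.l 0)) (.n 2 (.l 0) (.l 0))) (.n 1 (.n 2 (.n 2 (.l 0) (.l 0)) (.n 2 (.l 0) (.l 0))) (.n 2 (.l 0) (.l 0))))
    [(9620684800, 458227712), (618475290624, 68719476736), (898923233280, 59928215552)] rfl (by decide +kernel)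
end

mutual
theorem Z_c0_t50 : CovD 1 gZ [(10537140224, 458227712), (618475290624, 68719476736), (898923233280, 59928215552)] :=
  covD_E kZ_eq (.n 2 (.n 2 (.n 2 (.l 0) (.l 0)) (.n 1 (.n 2 (.l 0) (.l 0)) (.l 0))) (.n 1 (.n 2 (.n 2 (.l 0) (.l 0)) (.n 0 (.n 2 (.l 0) (.l 0)) (.n 2 (.l 0) (.n 2 (.l 0) (.l 0))))) (.n 2 (.l 0) (.n 2 (.l 0) (.l 0)))))
    [(10537140224, 458227712), (618475290624, 68719476736), (898923233280, 59928215552)] rfl (by decide +kernel)
theorem Z_c0_t52 : CovD 1 gZ [(10078912512, 916455424), (755914244096, 68719476736), (239712862208, 239712862208)] :=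
  covD_E kZ_eq (.n 2 (.n 2 (.n 2 (.n 2 (.l 0) (.l 0)) (.n 2 (.l 0) (.l 0))) (.n 2 (.n 2 (.l 0) (.l 0)) (.n 2 (.l 0) (.l 0)))) (.n 2 (.n 1 (.n 2 (.l 0) (.l 0)) (.n 2 (.l 0) (.l 0))) (.n 2 (.n 2 (.l 0) (.l 0)) (.n 2 (.l 0) (.l 0)))))
    [(10078912512, 916455424), (755914244096, 68719476736), (239712862208, 239712862208)] rfl (by decide +kernel)
end

mutual
theorem Z_c0_t54 : CovD 1 gZ [(10078912512, 916455424), (755914244096, 68719476736), (599282155520, 119856431104)] :=
  covD_E kZ_eq (.n 2 (.n 1 (.n 2 (.l 0) (.l 0)) (.n 2 (.l 0) (.l 0))) (.n 2 (.n 1 (.l 0) (.l 0)) (.n 2 (.l 0) (.l 0))))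
    [(10078912512, 916455424), (755914244096, 68719476736), (599282155520, 119856431104)] rfl (by decide +kernel)
theorem Z_c0_t55 : CovD 1 gZ [(10078912512, 916455424), (755914244096, 68719476736), (838995017728, 119856431104)] :=
  covD_E kZ_eq (.n 2 (.n 2 (.n 2 (.l 0) (.l 0)) (.n 2 (.l 0) (.n 0 (.l 0) (.l 0)))) (.n 0 (.n 2 (.n 2 (.l 0) (.l 0)) (.n 2 (.l 0) (.l 0))) (.n 2 (.n 2 (.l 0) (.l 0)) (.n 2 (.l 0) (.n 2 (.l 0) (.l 0))))))
    [(10078912512, 916455424), (755914244096, 68719476736), (838995017728, 119856431104)] rfl (by decide +kernel)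
end

mutual
theorem Z_c0_t58 : CovD 1 gZ [(10078912512, 916455424), (893353197568, 68719476736), (239712862208, 239712862208)] :=
  covD_E kZ_eq (.n 2 (.n 1 (.n 2 (.n 2 (.l 0) (.l 0)) (.n 2 (.l 0) (.l 0))) (.n 2 (.n 2 (.l 0) (.l 0)) (.n 2 (.l 0) (.l 0)))) (.n 2 (.n 0 (.n 2 (.l 0) (.l 0)) (.n 2 (.l 0) (.l 0))) (.n 2 (.n 0 (.l 0) (.l 0)) (.l 0))))
    [(10078912512, 916455424), (893353197568, 68719476736), (239712862208, 239712862208)] rfl (by decide +kernel)
theorem Z_c0_t59 : CovD 1 gZ [(10078912512, 916455424), (893353197568, 68719476736), (719138586624, 239712862208)] :=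
  covD_E kZ_eq (.n 2 (.n 2 (.n 2 (.l 0) (.l 0)) (.n 2 (.l 0) (.l 0))) (.n 2 (.n 2 (.n 0 (.l 0) (.l 0)) (.n 2 (.l 0) (.l 0))) (.n 2 (.n 2 (.l 0) (.l 0)) (.n 2 (.l 0) (.n 0 (.l 0) (.l 0))))))
    [(10078912512, 916455424), (893353197568, 68719476736), (719138586624, 239712862208)] rfl (by decide +kernel)
end

mutual
theorem Z_c0_t61 : CovD 1 gZ [(10078912512, 916455424), (1030792151040, 68719476736), (239712862208, 239712862208)] :=
  covD_E kZ_eq (.n 2 (.n 0 (.n 2 (.n 2 (.l 0) (.l 0)) (.n 2 (.l 0) (.l 0))) (.n 2 (.n 2 (.l 0) (.l 0)) (.n 2 (.l 0) (.l 0)))) (.n 2 (.n 2 (.l 0) (.l 0)) (.n 2 (.l 0) (.l 0))))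
    [(10078912512, 916455424), (1030792151040, 68719476736), (239712862208, 239712862208)] rfl (by decide +kernel)
theorem Z_c0_t62 : CovD 1 gZ [(10078912512, 916455424), (1030792151040, 68719476736), (719138586624, 239712862208)] :=
  covD_E kZ_eq (.n 2 (.n 2 (.n 2 (.l 0) (.l 0)) (.n 2 (.l 0) (.l 0))) (.n 2 (.n 2 (.l 0) (.n 0 (.l 0) (.l 0))) (.n 2 (.n 2 (.l 0) (.l 0)) (.n 2 (.l 0) (.l 0)))))
    [(10078912512, 916455424), (1030792151040, 68719476736), (719138586624, 239712862208)] rfl (by decide +kernel)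
end

mutual
theorem T_c0 : CovD 1 gT [(9162457088, 1832910848), (824633720832, 274877906944)] :=
  covD_E kT_eq (.n 0 (.n 1 (.l 0) (.n 1 (.l 0) (.l 0))) (.n 0 (.l 0) (.l 0)))
    [(9162457088, 1832910848), (824633720832, 274877906944)] rfl (by decide +kernel)
theorem S_c0 : CovD 0 gS [(9162457088, 1832910848), (824633720832, 274877906944)] :=
  covD_E kS_eq (.n 0 (.l 0) (.l 0))
    [(9162457088, 1832910848), (824633720832, 274877906944)] rfl (by decide +kernel)
end

theorem Z_c0_t4 : CovD 1 gZ [(8246001664, 916455424), (618475290624, 68719476736), (239712862208, 239712862208)] :=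
  covD_split 2 (by decide +kernel) Z_c0_t5 Z_c0_t6

theorem Z_c0_t8 : CovD 1 gZ [(8246001664, 916455424), (618475290624, 68719476736), (599282155520, 119856431104)] :=
  covD_split 1 (by decide +kernel) Z_c0_t9 Z_c0_t10

theorem Z_c0_t14 : CovD 1 gZ [(7787773952, 458227712), (618475290624, 68719476736), (898923233280, 59928215552)] :=
  covD_split 2 (by decide +kernel) Z_c0_t15 Z_c0_t16

theorem Z_c0_t12 : CovD 1 gZ [(7787773952, 458227712), (618475290624, 68719476736), (838995017728, 119856431104)] :=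
  covD_split 2 (by decide +kernel) Z_c0_t13 Z_c0_t14

theorem Z_c0_t17 : CovD 1 gZ [(8704229376, 458227712), (618475290624, 68719476736), (838995017728, 119856431104)] :=
  covD_split 2 (by decide +kernel) Z_c0_t18 Z_c0_t19

theorem Z_c0_t11 : CovD 1 gZ [(8246001664, 916455424), (618475290624, 68719476736), (838995017728, 119856431104)] :=
  covD_split 0 (by decide +kernel) Z_c0_t12 Z_c0_t17

theorem Z_c0_t7 : CovD 1 gZ [(8246001664, 916455424), (618475290624, 68719476736), (719138586624, 239712862208)] :=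
  covD_split 2 (by decide +kernel) Z_c0_t8 Z_c0_t11

theorem Z_c0_t3 : CovD 1 gZ [(8246001664, 916455424), (618475290624, 68719476736), (479425724416, 479425724416)] :=
  covD_split 2 (by decide +kernel) Z_c0_t4 Z_c0_t7

theorem Z_c0_t24 : CovD 1 gZ [(8246001664, 916455424), (755914244096, 68719476736), (838995017728, 119856431104)] :=
  covD_split 2 (by decide +kernel) Z_c0_t25 Z_c0_t26

theorem Z_c0_t22 : CovD 1 gZ [(8246001664, 916455424), (755914244096, 68719476736), (719138586624, 239712862208)] :=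
  covD_split 2 (by decide +kernel) Z_c0_t23 Z_c0_t24

theorem Z_c0_t20 : CovD 1 gZ [(8246001664, 916455424), (755914244096, 68719476736), (479425724416, 479425724416)] :=
  covD_split 2 (by decide +kernel) Z_c0_t21 Z_c0_t22

theorem Z_c0_t2 : CovD 1 gZ [(8246001664, 916455424), (687194767360, 137438953472), (479425724416, 479425724416)] :=
  covD_split 1 (by decide +kernel) Z_c0_t3 Z_c0_t20

theorem Z_c0_t30 : CovD 1 gZ [(8246001664, 916455424), (893353197568, 68719476736), (719138586624, 239712862208)] :=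
  covD_split 2 (by decide +kernel) Z_c0_t31 Z_c0_t32

theorem Z_c0_t28 : CovD 1 gZ [(8246001664, 916455424), (893353197568, 68719476736), (479425724416, 479425724416)] :=
  covD_split 2 (by decide +kernel) Z_c0_t29 Z_c0_t30

theorem Z_c0_t33 : CovD 1 gZ [(8246001664, 916455424), (1030792151040, 68719476736), (479425724416, 479425724416)] :=
  covD_split 2 (by decide +kernel) Z_c0_t34 Z_c0_t35

theorem Z_c0_t27 : CovD 1 gZ [(8246001664, 916455424), (962072674304, 137438953472), (479425724416, 479425724416)] :=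
  covD_split 1 (by decide +kernel) Z_c0_t28 Z_c0_t33

theorem Z_c0_t1 : CovD 1 gZ [(8246001664, 916455424), (824633720832, 274877906944), (479425724416, 479425724416)] :=
  covD_split 1 (by decide +kernel) Z_c0_t2 Z_c0_t27

theorem Z_c0_t39 : CovD 1 gZ [(10078912512, 916455424), (618475290624, 68719476736), (239712862208, 239712862208)] :=
  covD_split 2 (by decide +kernel) Z_c0_t40 Z_c0_t41

theorem Z_c0_t43 : CovD 1 gZ [(10078912512, 916455424), (618475290624, 68719476736), (599282155520, 119856431104)] :=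
  covD_split 2 (by decide +kernel) Z_c0_t44 Z_c0_t45

theorem Z_c0_t48 : CovD 1 gZ [(10078912512, 916455424), (618475290624, 68719476736), (898923233280, 59928215552)] :=
  covD_split 0 (by decide +kernel) Z_c0_t49 Z_c0_t50

theorem Z_c0_t46 : CovD 1 gZ [(10078912512, 916455424), (618475290624, 68719476736), (838995017728, 119856431104)] :=
  covD_split 2 (by decide +kernel) Z_c0_t47 Z_c0_t48

theorem Z_c0_t42 : CovD 1 gZ [(10078912512, 916455424), (618475290624, 68719476736), (719138586624, 239712862208)] :=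
  covD_split 2 (by decide +kernel) Z_c0_t43 Z_c0_t46

theorem Z_c0_t38 : CovD 1 gZ [(10078912512, 916455424), (618475290624, 68719476736), (479425724416, 479425724416)] :=
  covD_split 2 (by decide +kernel) Z_c0_t39 Z_c0_t42

theorem Z_c0_t53 : CovD 1 gZ [(10078912512, 916455424), (755914244096, 68719476736), (719138586624, 239712862208)] :=
  covD_split 2 (by decide +kernel) Z_c0_t54 Z_c0_t55

theorem Z_c0_t51 : CovD 1 gZ [(10078912512, 916455424), (755914244096, 68719476736), (479425724416, 479425724416)] :=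
  covD_split 2 (by decide +kernel) Z_c0_t52 Z_c0_t53

theorem Z_c0_t37 : CovD 1 gZ [(10078912512, 916455424), (687194767360, 137438953472), (479425724416, 479425724416)] :=
  covD_split 1 (by decide +kernel) Z_c0_t38 Z_c0_t51

theorem Z_c0_t57 : CovD 1 gZ [(10078912512, 916455424), (893353197568, 68719476736), (479425724416, 479425724416)] :=
  covD_split 2 (by decide +kernel) Z_c0_t58 Z_c0_t59

theorem Z_c0_t60 : CovD 1 gZ [(10078912512, 916455424), (1030792151040, 68719476736), (479425724416, 479425724416)] :=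
  covD_split 2 (by decide +kernel) Z_c0_t61 Z_c0_t62

theorem Z_c0_t56 : CovD 1 gZ [(10078912512, 916455424), (962072674304, 137438953472), (479425724416, 479425724416)] :=
  covD_split 1 (by decide +kernel) Z_c0_t57 Z_c0_t60

theorem Z_c0_t36 : CovD 1 gZ [(10078912512, 916455424), (824633720832, 274877906944), (479425724416, 479425724416)] :=
  covD_split 1 (by decide +kernel) Z_c0_t37 Z_c0_t56

theorem Z_c0 : CovD 1 gZ [(9162457088, 1832910848), (824633720832, 274877906944), (479425724416, 479425724416)] :=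
  covD_split 0 (by decide +kernel) Z_c0_t1 Z_c0_t36

end Pool.Agent.helper14.NS.Q100c
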